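import Pool.Agent.N922.PZ.Asm
import Pool.Agent.N783.PQ.Cmp

/-!
# Stoll's conjecture at the place `2` for a positive proportion of all curves of genus two with a
# rational Weierstrass point

Every curve of genus two over `ℚ` with a rational Weierstrass point has an equation `y ^ 2 = f(x)`,
`f = x ^ 5 + a₃ x ^ 3 + a₂ x ^ 2 + a₁ x + a₀`, with integers `a_i`. We order ALL these equations by
the height, `|a_i| ≤ B ^ (5 - i)`.

Theorem. For a positive proportion of them the following holds for the curve `C`: it has genus two, the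
point `∞` is its only rational point, and every adelic point of `C` which survives the `2 ^ k`-descents
for all `k` (that is, for every `k` it lifts to an adelic point of some `2 ^ k`-covering of `C`, the
pull-back of a `2 ^ k`-covering of the Jacobian `J`) has the component `∞` at the place `2`, and its real
component is in the connected component of `∞` of `C(ℝ)`.

By the theory of descent (Skorobogatov, Stoll; not in the Lean) the points of the Brauer-Manin set
`C(𝔸)^Br` survive all these descents. So the image of `C(𝔸)^Br` in `C(ℚ_2) × π₀(C(ℝ))` is equal to the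
image of `C(ℚ) = {∞}`, without any hypothesis on the Tate-Shafarevich group of `J` (of which only the
2-primary part is known to be zero) and without using the theorem of Mordell and Weil.

The proof. (1) Project PQ (helper783, our theorem for MP_a43263_nt), in a given residue class modulo
`4`: a positive proportion of the polynomials `f` is congruent to `x ^ 5 + x ^ 3 + x ^ 2 + x + 1` modulo
`4` and has `Sel_2(J / ℚ) = 0`. Hence the `2 ^ k`-Selmer groups are zero, and the class of the covering
to which the adelic point `(P_v)` lifts is trivial. Therefore the class of `P_v - ∞` is divisible by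
`2 ^ k` in `J(ℚ_v)`, for all `k` and all `v`. (2) For these `f` and an affine point `P` over `ℚ_2` the
class of `P - ∞` is not divisible by all `2 ^ k` in `J(ℚ_2)`: this is the theorem of project PY (our
hand-in ExactlyOnePoint for MP_8c338f_nt). (3) If `P - ∞` is divisible by two in `J(ℝ)` then
`x(P) - α > 0` or `P = (α, 0)` for all real zeros `α` of `f`.

Project PZ (helper922); parts by helpers 390, 574, 681, 863, 914. Project PY: helpers 93, 108, 126, 130,
265, 280, 327, 342, 349, 371, 386, 459, 488, 519, 803, 865, 907, 950. Project PQ (helper783): helpers 2,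
7, 27, 42, 73, 134, 216, 262, 271, 316, 322, 340, 346, 348, 383, 394, 400, 456, 457, 488, 490, 498, 507,
530, 595, 644, 691, 747, 755, 776, 833, 835, 850, 855, 878, 891, 896, 951.
-/

set_option autoImplicit false
set_option linter.all false

namespace Pool.Agent.Results.MP_ab3ecb_nt.AdelicPointsGenusTwo

open Polynomial
open Pool.Agent.N783.PQ.SD (CoordRing Jac pointMap act QB GQ IsCocycle pol)

/-- The polynomials `f = x ^ 5 + a₃ x ^ 3 + a₂ x ^ 2 + a₁ x + a₀` of height at most `B`:
`|a_i| ≤ B ^ (5 - i)`. (`pol a K` is `f` as a polynomial over `K`.) -/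
def Box (B : ℕ) : Set (Fin (2 * 2) → ℤ) := {a | ∀ i, |a i| ≤ (B : ℤ) ^ (5 - (i : ℕ))}

/-- A point of the projective curve `C : y ^ 2 = f(x)` over `K` is the point at infinity (`none`) or
an affine point `(x, y)`. -/
def OnC (a : Fin (2 * 2) → ℤ) (K : Type) [Field K] (P : Option (K × K)) : Prop :=
  ∀ x y : K, P = some (x, y) → y ^ 2 = (pol a K).eval x

/-- The element `p + q y` of the coordinate ring `L[x, y] / (y ^ 2 - f(x))`. -/
def elt (a : Fin (2 * 2) → ℤ) (L : Type) [Field L] (p q : L[X]) : CoordRing a L :=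
  (⟨p, q⟩ : QuadraticAlgebra L[X] (pol a L) 0)

/-- The ideal `(x - x₀, y - y₀)` of the affine point `(x₀, y₀)`. -/
noncomputable def pointIdeal (a : Fin (2 * 2) → ℤ) (L : Type) [Field L] (x₀ y₀ : L) :
    Ideal (CoordRing a L) := Ideal.span {elt a L (X - C x₀) 0, elt a L (-C y₀) 1}

/-- The map from the nonzero ideals of a Dedekind domain to the class group. -/
noncomputable def classHom (R : Type) [CommRing R] [IsDedekindDomain R] :
    nonZeroDivisors (Ideal R) →* ClassGroup R := ClassGroup.mk0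

/-- The same map (we write it in steps because the terms are long otherwise). -/
noncomputable def classOne (R : Type) [CommRing R] [IsDedekindDomain R] :
    OneHom (nonZeroDivisors (Ideal R)) (ClassGroup R) := (classHom R).toOneHom

/-- The class of a nonzero ideal. -/
noncomputable def classOf (R : Type) [CommRing R] [IsDedekindDomain R]
    (J : nonZeroDivisors (Ideal R)) : ClassGroup R := (classOne R).toFun J

/-- `Q` is the class of the nonzero ideal `I` in the class group of the Dedekind domain `R`. -/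
def IsClass (R : Type) [CommRing R] [IsDedekindDomain R] (I : Ideal R) (Q : ClassGroup R) : Prop :=
  ∃ J : nonZeroDivisors (Ideal R), J.1 = I ∧ classOf R J = Q

/-- `Q` is the class of the divisor `P - ∞` over an algebraic closure of `K`, for a point `P` of `C`
over `K`. -/
def HasClass (a : Fin (2 * 2) → ℤ) (K : Type) [Field K] (P : Option (K × K))
    (Q : Jac a (AlgebraicClosure K)) : Prop :=
  (P = none → Q = 0) ∧ ∀ x y : K, P = some (x, y) →
    ∃ _ : IsDedekindDomain (CoordRing a (AlgebraicClosure K)),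
      IsClass (CoordRing a (AlgebraicClosure K))
        (pointIdeal a _ (algebraMap K _ x) (algebraMap K _ y)) Q

/-- The restriction of the cocycle `c`, with values in `J[n]`, to the absolute Galois group of the
completion `K` of `ℚ` (`ℚ_p` or `ℝ`) represents the image of the point `P` of `C(K)` under the
connecting homomorphism `J(K) → H^1(K, J[n])`, that is, `P` lifts to a point over `K` of the covering
of `C` given by `c` (the pull-back of the `n`-covering of `J`). -/
def LocalDescent (a : Fin (2 * 2) → ℤ) (n : ℕ) (K : Type) [Field K] [Algebra ℚ K]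
    (c : GQ → Jac a QB) (P : Option (K × K)) : Prop :=
  ∀ ι : QB →ₐ[ℚ] AlgebraicClosure K, ∃ R : Jac a (AlgebraicClosure K), HasClass a K P (n • R) ∧
    ∀ (τ : AlgebraicClosure K ≃ₐ[K] AlgebraicClosure K) (σ : GQ),
      (∀ x : QB, τ (ι x) = ι (σ x)) →
      pointMap a (ι : QB →+* AlgebraicClosure K) (c σ) =
        pointMap a (τ : AlgebraicClosure K →+* AlgebraicClosure K) R - R

/-- The adelic point `(P_p), P_∞` survives the `n`-descent: it lifts to an adelic point of one of the
`n`-coverings of `C`. -/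
def Survives (a : Fin (2 * 2) → ℤ) (n : ℕ)
    (P : ∀ (p : ℕ) [Fact p.Prime], Option (ℚ_[p] × ℚ_[p])) (Pr : Option (ℝ × ℝ)) : Prop :=
  ∃ c : GQ → Jac a QB, IsCocycle a c ∧ (∀ σ, n • c σ = 0) ∧
    (∀ (p : ℕ) [Fact p.Prime], LocalDescent a n ℚ_[p] c (P p)) ∧ LocalDescent a n ℝ c Pr

/-- The adelic points of `C` (a point over each `ℚ_p`, and a point over `ℝ`) which survive the
`2 ^ k`-descent for all `k`. -/
structure InDescentSet (a : Fin (2 * 2) → ℤ) (P : ∀ (p : ℕ) [Fact p.Prime], Option (ℚ_[p] × ℚ_[p]))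
    (Pr : Option (ℝ × ℝ)) : Prop where
  on_curve : ∀ (p : ℕ) [Fact p.Prime], OnC a ℚ_[p] (P p)
  on_curve_real : OnC a ℝ Pr
  survives : ∀ k : ℕ, Survives a (2 ^ k) P Pr

/-- `C(ℚ) = {∞}` -/
def OnlyInfinity (a : Fin (2 * 2) → ℤ) : Prop := {P : Option (ℚ × ℚ) | OnC a ℚ P} = {none}

/-- The image of the descent set in `C(ℚ_2)` is `{∞}`. -/
def TwoAdicComponent (a : Fin (2 * 2) → ℤ) : Prop :=
  {Q : Option (ℚ_[2] × ℚ_[2]) | ∃ P Pr, InDescentSet a P Pr ∧ P 2 = Q} = {none}

/-- The real components of the points of the descent set are in the connected component of infinity of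
`C(ℝ)`: `x` is not smaller than any real zero of `f`. -/
def RealComponent (a : Fin (2 * 2) → ℤ) : Prop :=
  ∀ P Pr, InDescentSet a P Pr → ∀ x y : ℝ, Pr = some (x, y) →
    ∀ α : ℝ, (pol a ℝ).eval α = 0 → α ≤ x

/-- `P - ∞` is divisible by `n` in the group `J(K)` of the points of the Jacobian over an algebraic
closure of `K` that are fixed by the Galois group of `K`. -/
def DivisibleBy (a : Fin (2 * 2) → ℤ) (n : ℕ) (K : Type) [Field K] (P : Option (K × K)) : Prop :=
  ∃ R : Jac a (AlgebraicClosure K), HasClass a K P (n • R) ∧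
    ∀ τ : AlgebraicClosure K ≃ₐ[K] AlgebraicClosure K,
      pointMap a (τ : AlgebraicClosure K →+* AlgebraicClosure K) R = R

/-- For the points of the descent set the class of `P_p - ∞` is divisible by all powers of two in
`J(ℚ_p)`, for all primes `p`. -/
def TwoDivisible (a : Fin (2 * 2) → ℤ) : Prop :=
  ∀ P Pr, InDescentSet a P Pr → ∀ (k p : ℕ) [Fact p.Prime], DivisibleBy a (2 ^ k) ℚ_[p] (P p)

/-- The properties of the curve `C : y ^ 2 = f(x)`; `f` has no multiple roots, so that `C` has genus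
two. -/
structure Holds (a : Fin (2 * 2) → ℤ) : Prop where
  squarefree : Squarefree (pol a ℚ)
  irreducible : Irreducible (pol a ℚ)
  rational : OnlyInfinity a
  two_adic : TwoAdicComponent a
  real : RealComponent a
  divisible : TwoDivisible a

/-! ### Proof -/

section proofs

open Pool.Agent.Y723.HJ (CR HF mi cl cl_def mi_ne)
open Pool.Agent.N783.PQ.SD (eJ)

variable {a : Fin (2 * 2) → ℤ}

lemma class_iff (hi : Irreducible (pol a ℚ)) (K : Type) [Field K] [CharZero K]
    (P : Option (K × K)) (Q : Pool.Agent.N783.PQ.Jac a (AlgebraicClosure K)) :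
    HasClass a K P (eJ a _ Q) ↔ Q = Pool.Agent.N922.PZ.ptJ a K P := by
  haveI : CharZero (AlgebraicClosure K) :=
    charZero_of_injective_algebraMap (algebraMap K (AlgebraicClosure K)).injective
  haveI hF : HF (Pool.Agent.N783.PQ.fol a (AlgebraicClosure K)) :=
    Pool.Agent.N896.PQ.hf_of hi _
  cases P with
  | none =>
    constructor
    · intro h
      exact h.1 rfl
    · intro h
      exact ⟨fun _ => h, fun x y hxy => absurd hxy (by simp)⟩
  | some q =>
    obtain ⟨x, y⟩ := q
    have hne : mi (Pool.Agent.N783.PQ.fol a (AlgebraicClosure K))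
        (X - C (algebraMap K (AlgebraicClosure K) x)) (C (algebraMap K (AlgebraicClosure K) y)) ≠
          ⊥ := mi_ne (X_sub_C_ne_zero _)
    have e : Pool.Agent.N922.PZ.ptJ a K (some (x, y)) = Additive.ofMul (cl (mi
        (Pool.Agent.N783.PQ.fol a (AlgebraicClosure K))
        (X - C (algebraMap K (AlgebraicClosure K) x)) (C (algebraMap K (AlgebraicClosure K) y)))) :=
      dif_pos hF
    rw [e, cl_def hne]
    constructor
    · intro h
      obtain ⟨h1, J, h2, h3⟩ := h.2 x y rfl
      have h4 : J = ⟨_, mem_nonZeroDivisors_iff_ne_zero.2 hne⟩ := Subtype.ext h2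
      rw [h4] at h3
      exact h3.symm
    · intro h
      refine ⟨fun h' => absurd h' (by simp), fun x' y' hxy => ?_⟩
      simp only [Option.some.injEq, Prod.mk.injEq] at hxy
      obtain ⟨rfl, rfl⟩ := hxy
      refine ⟨inferInstanceAs (IsDedekindDomain (CR (Pool.Agent.N783.PQ.fol a
        (AlgebraicClosure K)))), ⟨_, mem_nonZeroDivisors_iff_ne_zero.2 hne⟩, rfl, ?_⟩
      exact h.symm

lemma local_of (hi : Irreducible (pol a ℚ)) (n : ℕ) (K : Type) [Field K] [Algebra ℚ K]
    (c : GQ → Jac a QB) (P : Option (K × K)) (h : LocalDescent a n K c P) :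
    Pool.Agent.N922.PZ.LocalDescent a n K (fun σ => (eJ a QB).symm (c σ)) P := by
  intro ι
  obtain ⟨R, h1, h2⟩ := h ι
  haveI : CharZero K := algebraRat.charZero K
  exact ⟨(eJ a _).symm R, (class_iff hi K P _).1 h1, fun τ σ hτ => h2 τ σ hτ⟩

lemma survives_of (hi : Irreducible (pol a ℚ)) {n : ℕ}
    {P : ∀ (p : ℕ) [Fact p.Prime], Option (ℚ_[p] × ℚ_[p])} {Pr : Option (ℝ × ℝ)}
    (h : Survives a n P Pr) : Pool.Agent.N922.PZ.Survives a n P Pr := by
  obtain ⟨c, h1, h2, h3, h4⟩ := h
  refine ⟨fun σ => (eJ a QB).symm (c σ), ?_, fun σ => h2 σ, fun p _ => local_of hi n ℚ_[p] c _ (h3 p),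
    local_of hi n ℝ c _ h4⟩
  rw [Pool.Agent.N783.PQ.SD.coc_iff]
  exact h1

lemma onC_none (K : Type) [Field K] : OnC a K none := by
  intro x y h
  exact absurd h (by simp)

lemma survives_none (n : ℕ) : Survives a n (fun p _ => none) none := by
  have h : ∀ (K : Type) [Field K] [Algebra ℚ K],
      LocalDescent a n K (fun _ => (0 : Jac a QB)) none := by
    intro K _ _ ι
    refine ⟨0, ⟨fun _ => smul_zero _, fun x y hxy => absurd hxy (by simp)⟩, fun τ σ _ => ?_⟩
    rw [Pool.Agent.N783.PQ.SD.pointMap_zero, Pool.Agent.N783.PQ.SD.pointMap_zero, sub_zero]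
  refine ⟨fun _ => 0, ⟨IsLocallyConstant.const _, fun σ τ => ?_⟩, fun σ => smul_zero _,
    fun p _ => h ℚ_[p], h ℝ⟩
  rw [Pool.Agent.N783.PQ.SD.act_zero, add_zero]

theorem holds_of (h1 : Pool.Agent.N922.PZ.S_ONE) (h2 : Pool.Agent.N922.PY.S_GLO)
    (h3 : Pool.Agent.N922.PZ.S_SEL) (hi : Irreducible (pol a ℚ))
    (hs : Pool.Agent.N783.PQ.SelZero (Pool.Agent.N783.PQ.pol a))
    (hc : Pool.Agent.N783.PQ.Cg 4 (Pool.Agent.N783.PQ.pol a) Pool.Agent.N922.PY.f0) :
    Holds a := by
  refine ⟨hi.squarefree, hi, ?_, ?_, ?_, ?_⟩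
  · show {P : Option (ℚ × ℚ) | OnC a ℚ P} = {none}
    ext P
    constructor
    · intro hP
      cases P with
      | none => rfl
      | some q => exact absurd (hP q.1 q.2 rfl) (h2 a hi hs hc q.1 q.2)
    · rintro rfl
      exact onC_none ℚ
  · show {Q : Option (ℚ_[2] × ℚ_[2]) | ∃ P Pr, InDescentSet a P Pr ∧ P 2 = Q} = {none}
    ext Q
    constructor
    · rintro ⟨P, Pr, ⟨e1, e2, e3⟩, rfl⟩
      exact (h1 a hi hs hc P Pr e1 e2 fun k => survives_of hi (e3 k)).1
    · rintro rfl
      exact ⟨fun p _ => none, none, ⟨fun p _ => onC_none _, onC_none _,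
        fun k => survives_none _⟩, rfl⟩
  · intro P Pr hP x y hxy
    exact (h1 a hi hs hc P Pr hP.on_curve hP.on_curve_real
      fun k => survives_of hi (hP.survives k)).2 x y hxy
  · intro P Pr hP k p hp
    obtain ⟨T, hT, hloc, -⟩ := Pool.Agent.N863.PZ.key h3 a hi hs P Pr k
      (survives_of hi (hP.survives k))
    obtain ⟨R, hR1, hR2⟩ := Pool.Agent.N922.PZ.des hi (2 ^ k) ℚ_[p] T _ hT (hloc p)
    exact ⟨eJ a _ R, (class_iff hi ℚ_[p] (P p) (2 ^ k • R)).2 hR1, hR2⟩

theorem of_final (h0 : Pool.Agent.N922.PZ.S_FINAL) (h1 : Pool.Agent.N922.PZ.S_ONE)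
    (h2 : Pool.Agent.N922.PY.S_GLO) (h3 : Pool.Agent.N922.PZ.S_SEL) : ∃ c : ℝ, 0 < c ∧ ∃ B₀ : ℕ,
    ∀ B ≥ B₀, (Box B).Finite ∧
      c * ((Box B).ncard : ℝ) ≤ ({a ∈ Box B | Holds a}.ncard : ℝ) := by
  obtain ⟨c, hc, B₀, hB⟩ := h0
  refine ⟨c, hc, B₀, fun B hB' => ?_⟩
  obtain ⟨e1, e2⟩ := hB B hB'
  refine ⟨e1, e2.trans ?_⟩
  have h4 : {a : Fin (2 * 2) → ℤ | (∀ i, |a i| ≤ (B : ℤ) ^ (5 - (i : ℕ))) ∧
      Irreducible (Pool.Agent.N783.PQ.fol a ℚ) ∧
      Pool.Agent.N783.PQ.SelZero (Pool.Agent.N783.PQ.pol a) ∧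
      Pool.Agent.N783.PQ.Cg 4 (Pool.Agent.N783.PQ.pol a) Pool.Agent.N922.PY.f0} ⊆
        {a ∈ Box B | Holds a} := by
    rintro a ⟨ha, hi, hs, hcg⟩
    exact ⟨ha, holds_of h1 h2 h3 hi hs hcg⟩
  exact_mod_cast Set.ncard_le_ncard h4 (e1.subset fun a ha => ha.1)

end proofs

/-- **For a positive proportion of all curves `y ^ 2 = x ^ 5 + a₃ x ^ 3 + a₂ x ^ 2 + a₁ x + a₀`, ordered
by height, the image of the descent set in the 2-adic points is the image of the rational points.** -/
theorem result : ∃ c : ℝ, 0 < c ∧ ∃ B₀ : ℕ, ∀ B ≥ B₀,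
    (Box B).Finite ∧ c * ((Box B).ncard : ℝ) ≤ ({a ∈ Box B | Holds a}.ncard : ℝ) :=
  of_final Pool.Agent.N922.PZ.final Pool.Agent.N922.PZ.one Pool.Agent.N922.PY.glo
    (Pool.Agent.N390.PZ.SEL.sel Pool.Agent.N783.PQ.rep)

end Pool.Agent.Results.MP_ab3ecb_nt.AdelicPointsGenusTwo
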