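import Pool.Agent.N53.CF.All
import Pool.Agent.N18.KM.Base
import Pool.Agent.N18.KM.Zc
import Pool.Agent.N676.OR.Pro
import Pool.Agent.N676.OR.Cnt
import Pool.Agent.Results.MP_ab3ecb_nt.TypesOfOrthogonalPoints

/-!
# Adelic points of twists of cyclic coverings are of the type of a rational point, for twists by the
# linear forms of the numerators and denominators of the convergents of a normal continued fraction

Let `b y ^ 2 = ∏ k, G k (z, w)` be a hyperelliptic curve `D` over `ℚ`, where the `G k` are the
homogenisations of polynomials `g k` with integral coefficients, of even degrees, pairwise coprime.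
Let `h` be a polynomial with integral coefficients, coprime to the `g k`, and `H` its homogenisation.
For an integer `a` and `m ≥ 2`, `m ∣ deg h`, consider the curve

  `C a : b y ^ 2 = ∏ k, G k (z, w)`, `a x ^ m = H (z, w)`,

a cyclic covering of `D`; for different `a` these coverings are twists of each other, for example the
curves `b y ^ 2 = ∏ g k (a x ^ m)`. The starting result `TypesOfOrthogonalPoints` (whose definitions are
used) is about 100% of the squarefree integers `|a| ≤ X`, for one family `(b, g, h)`.

The classes of the quaternion algebras `(G k, e)`, `e` a nonzero integer, belong to the Brauer group of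
`C a`. An adelic point of `C a` is orthogonal if the sum of the local invariants of each of these classes
is zero. The type of a point over a field is the family of the values of the `G k` modulo squares.

The integer `a` has the property `GoodTwist` if for all `m ≥ 2`, `m ∣ deg h`:

* every orthogonal adelic point of `C a` has at all places the type of a persistent class, a family `n k`
  of squarefree integers with `∏ n k = b t ^ 2`, such that every automorphism `σ` of the field of
  algebraic numbers fixes a zero `β` of `h` and numbers `y k` with `g k (β) = n k * y k ^ 2`;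
* if all persistent classes are those of integral zeros of `h` (`OnlyZeros`), every orthogonal adelic
  point has at all places the type of the same rational point of `C a`, which lies over an integral zero
  of `h` (`x = 0`). So the rational points are dense in the Brauer-Manin set as far as the types can see.

The number `α` in `(0, 1)` is continued fraction normal (`CFNormal`) if it is irrational and its orbit
under the Gauss map `x ↦ 1 / x - ⌊1 / x⌋` (`gauss`) is distributed according to the Gauss measure
`dx / ((1 + x) log 2)`. Almost all real numbers in `(0, 1)` have this property (Gauss-Kusmin), and there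
are explicit ones (Adler, Keane, Smorodinsky). Let `p_n / q_n = [0; a_1, …, a_n]` be the convergents of
`α`; here `a_(j + 1) = dig α j`, and `cvg (dig α) n = (p_n, q_n)`.

**Theorem.** Let `α` be any continued fraction normal number. There is ONE set `E` of indices of natural
density zero, such that for ALL families `(b, g, h)` and ALL integers `(u, v) ≠ (0, 0)` the twist by
`a = u p_n + v q_n` has the property `GoodTwist` for all but finitely many `n ∉ E`.

For instance the conclusion holds for the twists by the denominators `q_n` themselves. The condition on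
`α` does not depend on the curves. Only `O (log X)` of the integers up to `X` occur as twists, and the
integers `u p_n + v q_n` are not squarefree in general. There is one exceptional set for all families of
curves. The condition `OnlyZeros` is satisfied if the zeros of `h` are one or two integers (last part,
from the starting result).

Proof. A set of integral vectors is pronull if its closure in the product of the `ℤ_p ^ 2` over the
primes `p` which do not divide `M` has Haar measure zero, for all `M`. For a class which is not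
persistent there are a positive proportion of primes `p` (Chebotarev's theorem) such that no point of
`C a` over `ℚ_p` has this class if `p` divides `a` exactly once (local analysis of helper925, for `a` not
squarefree by helper676 and helper18). The set of the vectors `c` for which no such prime divides
`u c_0 + v c_1` exactly once is pronull (helper676). The extensions of the Gauss map by the finite groups
`GL_2 (ℤ / q)` are ergodic, so that the convergents of every normal continued fraction are in a given
pronull set only for indices of density zero (helper53 with the workers of the project CF). There are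
countably many `(b, g, h)` and `(u, v)`, and a diagonal argument gives one set `E`.
-/

set_option autoImplicit false

namespace Pool.Agent.Results.MP_ab3ecb_nt.ConvergentsOfNormalNumbers

open Polynomial MeasureTheory Filter Topology
open Pool.Agent.R925.FD hiding OnlyZeros
open Pool.Agent.Results.MP_ab3ecb_nt.TypesOfOrthogonalPoints
  (Admissible OnlyZeros SameType hom_int isSquare_cast)
open Pool.Agent.N676.OR (Hit Big lin pro_hits)
open Pool.Agent.N53.CF (CFNormal cvg)
open Pool.Agent.W811.Stu (gauss dig)

/-- `E` has natural density zero. -/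
def DensityZero (E : Set ℕ) : Prop :=
  Tendsto (fun N : ℕ => (({x : ℕ | x < N ∧ x ∈ E}.ncard : ℕ) : ℝ) / (N : ℝ)) atTop (𝓝 0)

/-- The adelic point has the type of a persistent class. -/
def OfPersistentClass {r m : ℕ} {b a : ℤ} {g : Fin r → ℤ[X]} {h : ℤ[X]}
    (P : AdelicPoint m b a g h) : Prop :=
  ∃ n : Fin r → ℤ, (∀ k, Squarefree (n k)) ∧
    IsClass 2 b (fun k => (n k : ℚ)) ∧ Persistent 2 g h (fun k => (n k : ℚ)) ∧
    (∀ k, IsSquare (value P.re k * (n k : ℝ))) ∧
    ∀ k (p : Nat.Primes), IsSquare (value (P.pa p) k * (n k : ℚ_[(p : ℕ)]))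

/-- The orthogonal adelic points of the curves `C a`, `m ≥ 2`, `m ∣ deg h`, have the types of
persistent classes, and if there are only the persistent classes of the integral zeros of `h`, they have
the types of rational points over these zeros. -/
def GoodTwist {r : ℕ} (b : ℤ) (g : Fin r → ℤ[X]) (h : ℤ[X]) (a : ℤ) : Prop :=
  ∀ m : ℕ, 2 ≤ m → m ∣ h.natDegree → ∀ P : AdelicPoint m b a g h, Orthogonal P →
    OfPersistentClass P ∧
    (OnlyZeros b g h →
      ∃ Q : Point m b a g h ℚ, Q.x = 0 ∧ Q.w = 1 ∧ (∃ α : ℤ, Q.z = α) ∧ SameType P Q)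

/-- The twists by all linear forms `u p_n + v q_n` of the numerators and denominators of the
convergents of `α`, for ALL families of curves, have the property `GoodTwist`, apart from the indices in
one set of density zero and finitely many more, depending on the family and the linear form. -/
def Good (α : ℝ) : Prop :=
  ∃ E : Set ℕ, DensityZero E ∧
    ∀ (r : ℕ) (b : ℤ) (g : Fin r → ℤ[X]) (h : ℤ[X]), Admissible b g h →
      ∀ u v : ℤ, (u ≠ 0 ∨ v ≠ 0) →
        {n : ℕ | n ∉ E ∧
          ¬ GoodTwist b g h (u * cvg (dig α) n 0 + v * cvg (dig α) n 1)}.Finite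

lemma goodTwist_of {r : ℕ} {b : ℤ} {g : Fin r → ℤ[X]} {h : ℤ[X]} (hA : Admissible b g h) :
    ∃ PP : Set (Set ℕ), PP.Finite ∧ (∀ P ∈ PP, Big P) ∧
      ∀ a : ℤ, (∀ P ∈ PP, Hit P a) → GoodTwist b g h a := by
  classical
  obtain ⟨PP, h1, h2, h3⟩ :=
    Pool.Agent.N18.KM.bm_once hA.b_ne hA.g_ne hA.h_ne hA.deg hA.coprime hA.coprime_h
  refine ⟨PP, h1, h2, fun a ha m hm hmh P hP => ?_⟩
  obtain ⟨n, hn1, hn2, hper, hn3, hn4⟩ := h3 a ha m hm hmh P hP
  refine ⟨⟨n, hn1, hn2, hper, hn3, hn4⟩, fun hOZ => ?_⟩
  obtain ⟨α, hα, hsq⟩ := hOZ _ hn2 hper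
  have hg : ∀ k : Fin r, (g k).eval α ≠ 0 := by
    intro k hgα
    refine coprime_field hA.h_ne (hA.coprime_h k) (F := ℚ) (z := (α : ℚ)) (w := 1)
      (Or.inr one_ne_zero) ?_ ?_
    · rw [hom_int, hα, Int.cast_zero]
    · rw [hom_int, hgα, Int.cast_zero]
  -- the rational point
  have hgne : ∀ k, hom (g k) (α : ℚ) 1 ≠ 0 := fun k => by
    rw [hom_int]
    exact Int.cast_ne_zero.2 (hg k)
  have hyex : ∃ y : ℚ, (b : ℚ) * y ^ 2 = ∏ k, hom (g k) (α : ℚ) 1 := by
    obtain ⟨t, ht⟩ := hn2.2
    choose s hs using hsq
    have h3 : (∏ k, (n k : ℚ)) * ∏ k, hom (g k) (α : ℚ) 1 = (∏ k, s k) * ∏ k, s k := by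
      rw [← Finset.prod_mul_distrib, ← Finset.prod_mul_distrib]
      refine Finset.prod_congr rfl fun k _ => ?_
      rw [hom_int]
      exact hs k
    have hb : (b : ℚ) ≠ 0 := Int.cast_ne_zero.2 hA.b_ne
    have hn0 : ∏ k, (n k : ℚ) ≠ 0 := Finset.prod_ne_zero_iff.2 fun k _ => hn2.1 k
    have ht0 : t ≠ 0 := by
      rintro rfl
      rw [zero_pow two_ne_zero, mul_zero] at ht
      exact hn0 ht
    rw [ht] at h3
    refine ⟨(∏ k, s k) / (b * t), ?_⟩
    rw [div_pow, sq (∏ k, s k), ← h3]
    field_simp
  obtain ⟨y, hy⟩ := hyex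
  refine ⟨⟨α, 1, 0, y, Or.inr one_ne_zero, hy, ?_⟩, rfl, rfl, ⟨α, rfl⟩, ?_⟩
  · rw [hom_int, hα, zero_pow (by omega : m ≠ 0), mul_zero, Int.cast_zero]
  · have hval : ∀ k, value (⟨α, 1, 0, y, Or.inr one_ne_zero, hy, by
        rw [hom_int, hα, zero_pow (by omega : m ≠ 0), mul_zero, Int.cast_zero]⟩ :
        Point m b a g h ℚ) k = ((g k).eval α : ℤ) := by
      intro k
      have h4 := cval_of_ne (b := b) (hgne k)
      rw [hom_int] at h4
      exact h4
    refine ⟨fun k => ?_, fun k p => ?_⟩
    · rw [hval]
      exact isSquare_cast (hn1 k).ne_zero (hn3 k) (hsq k)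
    · rw [hval]
      exact isSquare_cast (hn1 k).ne_zero (hn4 k p) (hsq k)

theorem result :
    (∀ α : ℝ, CFNormal α → Good α) ∧
    (∀ᵐ α ∂(volume.restrict (Set.Ioo (0 : ℝ) 1)), CFNormal α) ∧
    ∀ (r : ℕ) (b : ℤ) (g : Fin r → ℤ[X]) (h : ℤ[X]), Admissible b g h →
      ∀ α₁ α₂ : ℤ, (∀ β : AlgebraicClosure ℚ, aeval β h = 0 ↔ β = α₁ ∨ β = α₂) →
        OnlyZeros b g h := by
  classical
  refine ⟨fun α hα => ?_, Pool.Agent.N53.CF.t_TYP, fun r b g h hA =>
    (Pool.Agent.Results.MP_ab3ecb_nt.TypesOfOrthogonalPoints.result (Fin r) b g h hA).2.1⟩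
  have hcp := Pool.Agent.N676.OR.countable_poly
  have hex : ∀ D : (Σ r : ℕ, ℤ × (Fin r → ℤ[X]) × ℤ[X]), ∃ PP : Set (Set ℕ), PP.Finite ∧
      (∀ P ∈ PP, Big P) ∧ ∀ a : ℤ, (∀ P ∈ PP, Hit P a) →
        Admissible D.2.1 D.2.2.1 D.2.2.2 → GoodTwist D.2.1 D.2.2.1 D.2.2.2 a := by
    rintro ⟨r, b, g, h⟩
    by_cases hA : Admissible b g h
    · obtain ⟨PP, h1, h2, h3⟩ := goodTwist_of hA
      exact ⟨PP, h1, h2, fun a ha _ => h3 a ha⟩
    · exact ⟨∅, Set.finite_empty, fun P hP => absurd hP (Set.notMem_empty _),
        fun a _ hA' => absurd hA' hA⟩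
  choose PP h1 h2 h3 using hex
  obtain ⟨E, e1, e2⟩ := Pool.Agent.N18.KM.one_set
    (κ := {lam : Fin 2 → ℤ // lam ≠ 0} × (Σ r : ℕ, ℤ × (Fin r → ℤ[X]) × ℤ[X]))
    (cvg (dig α)) (fun x => {c : Fin 2 → ℤ | ¬ ∀ P ∈ PP x.2, Hit P (lin x.1.1 c)})
    (fun x => Pool.Agent.N53.CF.main _ (pro_hits (h1 x.2) (h2 x.2) x.1.2) α hα)
  refine ⟨E, e1, fun r b g h hA u v huv => ?_⟩
  have hlam : (![u, v] : Fin 2 → ℤ) ≠ 0 := by
    intro h0
    have a0 := congrFun h0 0
    have a1 := congrFun h0 1
    simp at a0 a1
    rcases huv with h | h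
    · exact h a0
    · exact h a1
  refine (e2 (⟨![u, v], hlam⟩, ⟨r, b, g, h⟩)).subset ?_
  rintro n ⟨hn, hng⟩
  refine ⟨hn, fun hall => hng ?_⟩
  have h4 := h3 ⟨r, b, g, h⟩ _ hall hA
  have e : lin ![u, v] (cvg (dig α) n) = u * cvg (dig α) n 0 + v * cvg (dig α) n 1 := by
    unfold Pool.Agent.N676.OR.lin
    rw [Fin.sum_univ_two]
    rfl
  rwa [e] at h4

end Pool.Agent.Results.MP_ab3ecb_nt.ConvergentsOfNormalNumbers
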