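import Pool.Agent.N18.KM.Tw
import Pool.Agent.N18.KM.Zc
import Pool.Agent.N24.KM.All
import Pool.Agent.N676.OR.Cnt
import Pool.Agent.Results.MP_ab3ecb_nt.TypesOfOrthogonalPoints

/-!
# Adelic points of twists of cyclic coverings are of the type of a rational point, for twists along
# arbitrary sequences and almost all multipliers

Let `b y ^ 2 = ∏ k, G k (z, w)` be a hyperelliptic curve `D` over `ℚ`, where the `G k` are the
homogenisations of polynomials `g k` with integral coefficients, of even degrees, pairwise coprime.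
Let `h` be a polynomial with integral coefficients, coprime to the `g k`, and `H` its homogenisation.
For an integer `a` and `m ≥ 2`, `m ∣ deg h`, consider the curve

  `C a : b y ^ 2 = ∏ k, G k (z, w)`, `a x ^ m = H (z, w)`,

a cyclic covering of `D`; for different `a` these coverings are twists of each other, for example the
curves `b y ^ 2 = ∏ g k (a x ^ m)`. The starting result `TypesOfOrthogonalPoints` (whose definitions are
used) is about 100% of the squarefree integers `|a| ≤ X`, for one family `(b, g, h)`.

The classes of the quaternion algebras `(G k, e)`, `e` a nonzero integer, belong to the Brauer group of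
`C a`. An adelic point of `C a` is orthogonal if the sum of the local invariants of each of these classes
is zero. The type of a point over a field is the family of the values of the `G k` modulo squares.

The integer `a` has the property `GoodTwist` if for all `m ≥ 2`, `m ∣ deg h`:

* every orthogonal adelic point of `C a` has at all places the type of a persistent class, a family `n k`
  of squarefree integers with `∏ n k = b t ^ 2`, such that every automorphism `σ` of the field of
  algebraic numbers fixes a zero `β` of `h` and numbers `y k` with `g k (β) = n k * y k ^ 2`;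
* if all persistent classes are those of integral zeros of `h` (`OnlyZeros`), every orthogonal adelic
  point has at all places the type of the same rational point of `C a`, which lies over an integral zero
  of `h` (`x = 0`). So the rational points are dense in the Brauer-Manin set as far as the types can see.

**Theorem.** A sequence `c_0, c_1, …` of vectors in `ℤ ^ ι` (`ι` a finite set) is called good (`Good`) if
there is ONE set `E` of indices of natural density zero, such that for ALL families `(b, g, h)` and ALL
linear forms `λ ≠ 0` with integral coefficients the twist by `a = λ(c_x)` has the property `GoodTwist`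
for all but finitely many `x ∉ E`.

1. Let `f_{i,0}, f_{i,1}, …` (`i ∈ ι`) be functions which satisfy the hypothesis of Koksma's theorem on
   `[a_i, b_i]` (`Koksma`). Then `c_x = (⌊f_{i,x}(α_i)⌋)_i` is good for almost all `α` with
   `a_i ≤ α_i ≤ b_i`.
2. Let `a_{i,0}, a_{i,1}, …` (`i ∈ ι`) be ANY sequences of real numbers with mutual distances at least
   `δ > 0`, for example any sequences of different integers (`x!`, `2 ^ x`, any enumeration of any
   infinite set of integers or of primes), and possibly all the same. Then `c_x = (⌊a_{i,x} α_i⌋)_i` is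
   good for almost all `α`.
3. Let `k_0, k_1, …` be ANY sequence of different natural numbers, and `ξ_i ≠ 0`. Then
   `c_x = (⌊ξ_i α_i ^ k_x⌋)_i` is good for almost all `α` with all `α_i > 1`.

For instance, for almost all real numbers `α` the conclusion holds for the twists by `⌊x! α⌋`, or by
`⌊α ^ x⌋` if `α > 1`, for `100%` of the `x`. There is no condition of growth or regularity: the sequences
can grow arbitrarily fast, so that among the integers up to `X` the number of the twists considered tends
to infinity with `X` as slowly as one likes, and the twists `a` are not squarefree in general. There is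
one exceptional set for all families of curves. The condition `OnlyZeros` is satisfied if the zeros of
`h` are one or two integers (last part, from the starting result).

Proof. A set of integral vectors is pronull if its closure in the product of the `ℤ_p ^ ι` over the
primes `p` which do not divide `M` has Haar measure zero, for all `M`. For a class which is not
persistent there are a positive proportion of primes `p` (Chebotarev's theorem) such that no point of
`C a` over `ℚ_p` has this class if `p` divides `a` exactly once (local analysis of helper925, for `a` not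
squarefree by helper676). The set of the vectors `c` for which no such prime divides `λ(c)` exactly once
is pronull (helper676, with the engine of helper24, helper300 and helper765). By the theorem of Koksma in
several variables almost all metric sequences are in such a set only for indices of density zero
(helper24 with the workers of the project KM). There are countably many `(b, g, h)` and `λ`, and a
diagonal argument gives one set `E`.
-/

set_option autoImplicit false

namespace Pool.Agent.Results.MP_ab3ecb_nt.MetricSequences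

open Polynomial MeasureTheory Filter Topology
open Pool.Agent.R925.FD hiding OnlyZeros
open Pool.Agent.Results.MP_ab3ecb_nt.TypesOfOrthogonalPoints
  (Admissible OnlyZeros SameType hom_int isSquare_cast)
open Pool.Agent.N676.OR (Hit Big)

/-- The hypothesis of Koksma's theorem: the functions `f n` are twice continuously differentiable, the
derivatives of different ones differ by at least `δ > 0` on `[a, b]`, and the second derivative of
`f m - f n` does not change its sign there. -/
def Koksma (a b : ℝ) (f : ℕ → ℝ → ℝ) : Prop :=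
  (∀ n, ContDiff ℝ 2 (f n)) ∧ ∃ δ : ℝ, 0 < δ ∧ ∀ m n : ℕ, m ≠ n →
    (∀ x ∈ Set.Icc a b, δ ≤ |deriv (f m) x - deriv (f n) x|) ∧
    ((∀ x ∈ Set.Icc a b, deriv (deriv (f n)) x ≤ deriv (deriv (f m)) x) ∨
      ∀ x ∈ Set.Icc a b, deriv (deriv (f m)) x ≤ deriv (deriv (f n)) x)

/-- `E` has natural density zero. -/
def DensityZero (E : Set ℕ) : Prop :=
  Tendsto (fun N : ℕ => (({x : ℕ | x < N ∧ x ∈ E}.ncard : ℕ) : ℝ) / (N : ℝ)) atTop (𝓝 0)

/-- The adelic point has the type of a persistent class. -/
def OfPersistentClass {r m : ℕ} {b a : ℤ} {g : Fin r → ℤ[X]} {h : ℤ[X]}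
    (P : AdelicPoint m b a g h) : Prop :=
  ∃ n : Fin r → ℤ, (∀ k, Squarefree (n k)) ∧
    IsClass 2 b (fun k => (n k : ℚ)) ∧ Persistent 2 g h (fun k => (n k : ℚ)) ∧
    (∀ k, IsSquare (value P.re k * (n k : ℝ))) ∧
    ∀ k (p : Nat.Primes), IsSquare (value (P.pa p) k * (n k : ℚ_[(p : ℕ)]))

/-- The orthogonal adelic points of the curves `C a`, `m ≥ 2`, `m ∣ deg h`, have the types of
persistent classes, and if there are only the persistent classes of the integral zeros of `h`, they have
the types of rational points over these zeros. -/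
def GoodTwist {r : ℕ} (b : ℤ) (g : Fin r → ℤ[X]) (h : ℤ[X]) (a : ℤ) : Prop :=
  ∀ m : ℕ, 2 ≤ m → m ∣ h.natDegree → ∀ P : AdelicPoint m b a g h, Orthogonal P →
    OfPersistentClass P ∧
    (OnlyZeros b g h →
      ∃ Q : Point m b a g h ℚ, Q.x = 0 ∧ Q.w = 1 ∧ (∃ α : ℤ, Q.z = α) ∧ SameType P Q)

/-- The twists by all linear forms of the vectors `c 0, c 1, …`, for ALL families of curves, have the
property `GoodTwist`, apart from the indices in one set of density zero and finitely many more,
depending on the family and the linear form. -/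
def Good {ι : Type} [Fintype ι] (c : ℕ → ι → ℤ) : Prop :=
  ∃ E : Set ℕ, DensityZero E ∧
    ∀ (r : ℕ) (b : ℤ) (g : Fin r → ℤ[X]) (h : ℤ[X]), Admissible b g h →
      ∀ lam : ι → ℤ, lam ≠ 0 → {x : ℕ | x ∉ E ∧ ¬ GoodTwist b g h (∑ i, lam i * c x i)}.Finite

lemma goodTwist_of {r : ℕ} {b : ℤ} {g : Fin r → ℤ[X]} {h : ℤ[X]} (hA : Admissible b g h) :
    ∃ PP : Set (Set ℕ), PP.Finite ∧ (∀ P ∈ PP, Big P) ∧
      ∀ a : ℤ, (∀ P ∈ PP, Hit P a) → GoodTwist b g h a := by
  classical
  obtain ⟨PP, h1, h2, h3⟩ :=
    Pool.Agent.N18.KM.bm_once hA.b_ne hA.g_ne hA.h_ne hA.deg hA.coprime hA.coprime_h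
  refine ⟨PP, h1, h2, fun a ha m hm hmh P hP => ?_⟩
  obtain ⟨n, hn1, hn2, hper, hn3, hn4⟩ := h3 a ha m hm hmh P hP
  refine ⟨⟨n, hn1, hn2, hper, hn3, hn4⟩, fun hOZ => ?_⟩
  obtain ⟨α, hα, hsq⟩ := hOZ _ hn2 hper
  have hg : ∀ k : Fin r, (g k).eval α ≠ 0 := by
    intro k hgα
    refine coprime_field hA.h_ne (hA.coprime_h k) (F := ℚ) (z := (α : ℚ)) (w := 1)
      (Or.inr one_ne_zero) ?_ ?_
    · rw [hom_int, hα, Int.cast_zero]
    · rw [hom_int, hgα, Int.cast_zero]
  -- the rational point
  have hgne : ∀ k, hom (g k) (α : ℚ) 1 ≠ 0 := fun k => by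
    rw [hom_int]
    exact Int.cast_ne_zero.2 (hg k)
  have hyex : ∃ y : ℚ, (b : ℚ) * y ^ 2 = ∏ k, hom (g k) (α : ℚ) 1 := by
    obtain ⟨t, ht⟩ := hn2.2
    choose s hs using hsq
    have h3 : (∏ k, (n k : ℚ)) * ∏ k, hom (g k) (α : ℚ) 1 = (∏ k, s k) * ∏ k, s k := by
      rw [← Finset.prod_mul_distrib, ← Finset.prod_mul_distrib]
      refine Finset.prod_congr rfl fun k _ => ?_
      rw [hom_int]
      exact hs k
    have hb : (b : ℚ) ≠ 0 := Int.cast_ne_zero.2 hA.b_ne
    have hn0 : ∏ k, (n k : ℚ) ≠ 0 := Finset.prod_ne_zero_iff.2 fun k _ => hn2.1 k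
    have ht0 : t ≠ 0 := by
      rintro rfl
      rw [zero_pow two_ne_zero, mul_zero] at ht
      exact hn0 ht
    rw [ht] at h3
    refine ⟨(∏ k, s k) / (b * t), ?_⟩
    rw [div_pow, sq (∏ k, s k), ← h3]
    field_simp
  obtain ⟨y, hy⟩ := hyex
  refine ⟨⟨α, 1, 0, y, Or.inr one_ne_zero, hy, ?_⟩, rfl, rfl, ⟨α, rfl⟩, ?_⟩
  · rw [hom_int, hα, zero_pow (by omega : m ≠ 0), mul_zero, Int.cast_zero]
  · have hval : ∀ k, value (⟨α, 1, 0, y, Or.inr one_ne_zero, hy, by
        rw [hom_int, hα, zero_pow (by omega : m ≠ 0), mul_zero, Int.cast_zero]⟩ :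
        Point m b a g h ℚ) k = ((g k).eval α : ℤ) := by
      intro k
      have h4 := cval_of_ne (b := b) (hgne k)
      rw [hom_int] at h4
      exact h4
    refine ⟨fun k => ?_, fun k p => ?_⟩
    · rw [hval]
      exact isSquare_cast (hn1 k).ne_zero (hn3 k) (hsq k)
    · rw [hval]
      exact isSquare_cast (hn1 k).ne_zero (hn4 k p) (hsq k)

theorem result :
    (∀ (ι : Type) [Fintype ι],
      (∀ (a b : ι → ℝ) (f : ι → ℕ → ℝ → ℝ), (∀ i, a i < b i) → (∀ i, Koksma (a i) (b i) (f i)) →
        ∀ᵐ α : ι → ℝ, (∀ i, α i ∈ Set.Icc (a i) (b i)) → Good fun x i => ⌊f i x (α i)⌋) ∧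
      (∀ (a : ι → ℕ → ℝ) (δ : ℝ), 0 < δ → (∀ i m n, m ≠ n → δ ≤ |a i m - a i n|) →
        ∀ᵐ α : ι → ℝ, Good fun x i => ⌊a i x * α i⌋) ∧
      (∀ (k : ℕ → ℕ) (ξ : ι → ℝ), Function.Injective k → (∀ i, ξ i ≠ 0) →
        ∀ᵐ α : ι → ℝ, (∀ i, 1 < α i) → Good fun x i => ⌊ξ i * α i ^ k x⌋)) ∧
    ∀ (r : ℕ) (b : ℤ) (g : Fin r → ℤ[X]) (h : ℤ[X]), Admissible b g h →
      ∀ α₁ α₂ : ℤ, (∀ β : AlgebraicClosure ℚ, aeval β h = 0 ↔ β = α₁ ∨ β = α₂) →
        OnlyZeros b g h := by
  classical
  refine ⟨fun ι _ => ?_, fun r b g h hA =>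
    (Pool.Agent.Results.MP_ab3ecb_nt.TypesOfOrthogonalPoints.result (Fin r) b g h hA).2.1⟩
  have hcp := Pool.Agent.N676.OR.countable_poly
  refine Pool.Agent.N18.KM.parts_tw Pool.Agent.N24.KM.main
    (𝔇 := Σ r : ℕ, ℤ × (Fin r → ℤ[X]) × ℤ[X])
    (fun D a => Admissible D.2.1 D.2.2.1 D.2.2.2 → GoodTwist D.2.1 D.2.2.1 D.2.2.2 a) ?_ Good ?_
  · rintro ⟨r, b, g, h⟩
    by_cases hA : Admissible b g h
    · obtain ⟨PP, h1, h2, h3⟩ := goodTwist_of hA
      exact ⟨PP, h1, h2, fun a ha _ => h3 a ha⟩
    · exact ⟨∅, Set.finite_empty, fun P hP => absurd hP (Set.notMem_empty _),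
        fun a _ hA' => absurd hA' hA⟩
  · intro c E hE hall
    refine ⟨E, hE, fun r b g h hA lam hlam => (hall lam hlam ⟨r, b, g, h⟩).subset ?_⟩
    rintro x ⟨hx, hx'⟩
    exact ⟨hx, fun hgood => hx' (hgood hA)⟩

end Pool.Agent.Results.MP_ab3ecb_nt.MetricSequences
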