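import Pool.Agent.N89.MI.Cov
import Pool.Agent.N89.MW.Fin
import Pool.Agent.N89.MW.Jordan

/-!
# The Mordell-Weil sieve explains the absence of rational points on 100% of the pull-backs of arbitrary
coverings to products of elliptic curves with complex multiplication

`K` is a number field, `G = E_1 × ⋯ × E_r × G_m^s`, where `E_i` is an elliptic curve
`y² = x³ + a_i x` or `y² = x³ + b_i` over `K` (`r + s` arbitrary, any rank). For `c ∈ (𝓞 K)^J` let
`φ_c : G → ℙ^n` be the map with the coordinates `Φ_j + ∑_x c_(j,x) Λ_(j,x)`, `j = 0, …, n`, where `Φ_j`,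
`Λ_(j,x)` are polynomials over `𝓞 K` in the homogeneous coordinates of the points of the `E_i` and in
the coordinates of the torus, of the same multidegree, and each linear system `(Λ_(j,x))_x` has no
base points on `G`.

Let `L` be a finite extension of `K`. We assume that `K` is not totally real, or that `L` has a real
embedding. Let

  `h(T; X) = h_0(T) + h_1(T) X + ⋯ + h_e(T) X^e`,  `T = (T_0, …, T_n)`, `e ≥ 2`,

be a polynomial over `𝓞 L`, the `h_i` homogeneous of the same degree in `T`, i.e. a covering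
`Y → ℙ^n` over `L`, which is regular with the group `𝒢 ⊆ S_e`: its Galois group over `L(T)` is `𝒢`, and
on some complex line `y + x v` its Galois group over `ℂ(x)` is `𝒢`, too. `𝒢` is ANY transitive group of
permutations. Let `Y_c` be the pull-back `h(φ_c(P); X) = 0` of `Y` to `G`; for `r = 1`, `s = 0` it is a
curve, a covering of the elliptic curve `E_1` of degree `e`.

**Theorem.** For almost all `c` there is a number `Y` such that the Mordell-Weil sieve on `G` with the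
finitely many primes of `L` above the prime numbers `p ≤ Y` explains that `Y_c` has no `L`-rational
points (over points with `S`-units as torus coordinates): for EVERY `P ∈ G(L)` there is such a prime
`w` for which `Y_c` has no point over the residue field `k_w` above the reduction of `P`.

1. For all `L`, `h`, `𝒢` and `S ≥ 1` at most `(2H+1)^(|J|N) exp(-c₀ log H / log log H)` of the
`(2H+1)^(|J|N)` vectors `c` of size at most `H` are such that this is false, `N = [K : ℚ]`.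

2. There is ONE exceptional set `𝓔`, with at most `(2H+1)^(|J|N) exp(-log H / (log log H)²)` elements of
size at most `H`, such that for ALL fields `L` as above, ALL such coverings `h` over `L` (of all degrees
`e`, with all groups `𝒢`) and all `S` all but finitely many `c ∉ 𝓔` have the property.

So the image of `Y_c(𝔸_L)` in `G(𝔸_L)` does not meet the closure of `G(L)`. Let `s = 0` and suppose that
the groups `Ш(E_i / L)` are finite (for example `L = K = ℚ`, `E_i` of analytic rank at most one). Then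
the Brauer set of `G` is the closure of `G(L)`, hence the Brauer set of a smooth projective model of
`Y_c` is empty; for curves `Y_c` this is Stoll's conjecture.

Written by helper89; it uses the files of the projects HA, HG, HX, HL (see there for the authors).
-/

set_option autoImplicit false

namespace Pool.Agent.Results.MP_ab3ecb_nt.SieveForCoverings

open Polynomial NumberField

/-- polynomials with coefficients in `O` in the homogeneous coordinates `V_(i,j)`, `i < r`, `j < 3`,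
of points in `r` planes and the coordinates `u_l` of a torus of dimension `s` -/
abbrev Pol (O : Type) [CommRing O] (r s : ℕ) : Type := MvPolynomial ((Fin r × Fin 3) ⊕ Fin s) O

/-- homogeneous of degree `d i` in `V_i` -/
def Homog {O : Type} [CommRing O] {r s : ℕ} (F : Pol O r s) (d : Fin r → ℕ) : Prop :=
  ∀ μ ∈ F.support, ∀ i, ∑ j, μ (Sum.inl (i, j)) = d i

/-- the value `F(V, u)`; the coefficients are mapped by `φ` -/
noncomputable def val {O k : Type} [CommRing O] [CommRing k] (φ : O →+* k) {r s : ℕ}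
    (F : Pol O r s) (V : Fin r → Fin 3 → k) (u : Fin s → k) : k :=
  MvPolynomial.eval₂ φ (Sum.elim (fun ij => V ij.1 ij.2) u) F

/-- `(V, u)` represents a point of `E_1 × ⋯ × E_r × G_m^s`, `E_i : y² = x³ + a_i x + b_i` -/
def OnG {k : Type} [Field k] {r s : ℕ} (a b : Fin r → ℤ) (V : Fin r → Fin 3 → k) (u : Fin s → k) :
    Prop :=
  (∀ i, V i ≠ 0 ∧ V i 1 ^ 2 * V i 2 = V i 0 ^ 3 + a i * V i 0 * V i 2 ^ 2 + b i * V i 2 ^ 3) ∧
    ∀ l, u l ≠ 0

/-- the embedding of `𝓞 K` in `ℂ` -/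
noncomputable def emb {K : Type} [Field K] (σ : K →+* ℂ) : 𝓞 K →+* ℂ :=
  σ.comp (algebraMap (𝓞 K) K)

/-- the polynomial `∑ f_i X^i` has degree `e`, it has the `e` different roots `x_1, …, x_e` in the
algebraic closure of `K`, and its Galois group over `K`, as a group of permutations of the indices of
the roots, is `𝒢` -/
def GalIs {K : Type} [Field K] {e : ℕ} (f : Fin (e + 1) → K) (𝒢 : Subgroup (Equiv.Perm (Fin e))) :
    Prop :=
  ∃ x : Fin e → AlgebraicClosure K, (f (Fin.last e) ≠ 0 ∧ Function.Injective x ∧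
    (∑ i, C (f i) * X ^ (i : ℕ)).map (algebraMap K (AlgebraicClosure K)) =
      C (algebraMap K (AlgebraicClosure K) (f (Fin.last e))) * ∏ i, (X - C (x i))) ∧
    ∀ σ : Equiv.Perm (Fin e), σ ∈ 𝒢 ↔
      ∃ τ : AlgebraicClosure K ≃ₐ[K] AlgebraicClosure K, ∀ i, τ (x i) = x (σ i)

/-- `x` is an `S`-unit (for `x ≠ 0`): `S^n x` and `S^n x⁻¹` are algebraic integers for some `n` -/
def SUnit {L : Type} [Field L] (S : ℕ) (x : L) : Prop :=
  ∃ n : ℕ, IsIntegral ℤ ((S : L) ^ n * x) ∧ IsIntegral ℤ ((S : L) ^ n * x⁻¹)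

/-- the `j`-th coordinate of the point `φ_c(V, u)` over `A`, where `ψ` maps `𝓞 K` to `A`; the vector `c`
represents the coefficients `c_(j,x) = ∑_i c_((j,x),i) ω_i ∈ 𝓞 K` -/
noncomputable def coord {K A : Type} [Field K] [NumberField K] [Field A] (ψ : 𝓞 K →+* A) {N r s n : ℕ}
    (ω : Module.Basis (Fin N) ℤ (𝓞 K)) (Φ : Fin (n + 1) → Pol (𝓞 K) r s)
    {ι : Fin (n + 1) → Type} [∀ j, Fintype (ι j)] (Λ : (j : Fin (n + 1)) → ι j → Pol (𝓞 K) r s)
    (c : (Σ j, ι j) × Fin N → ℤ) (V : Fin r → Fin 3 → A) (u : Fin s → A) (j : Fin (n + 1)) : A :=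
  val ψ (Φ j) V u + ∑ x, ψ (∑ i, c (⟨j, x⟩, i) • ω i) * val ψ (Λ j x) V u

/-- `w` is a vector of homogeneous coordinates of the reduction modulo the kernel of `φ` of the point
of the plane with the homogeneous coordinates `v`: all linear forms over `𝓞 L` which vanish at `v`
vanish, modulo the kernel, at `w` -/
def Reduces {L k : Type} [Field L] [Field k] (φ : 𝓞 L →+* k) (v : Fin 3 → L) (w : Fin 3 → k) : Prop :=
  w ≠ 0 ∧ ∀ α : Fin 3 → 𝓞 L, ∑ j, (α j : L) * v j = 0 → ∑ j, φ (α j) * w j = 0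

/-- `y ≠ 0` is the reduction of `u` modulo the kernel of `φ` -/
def ReducesUnit {L k : Type} [Field L] [Field k] (φ : 𝓞 L →+* k) (u : L) (y : k) : Prop :=
  y ≠ 0 ∧ ∀ α β : 𝓞 L, (α : L) * u = β → φ α * y = φ β

/-- the covering `h(φ_c(P); X) = 0` of `G` has modulo the kernel of `φ : 𝓞 L → k` no `k`-rational point
over the point `(W, y)` of `G` over `k`: the leading coefficient of the polynomial is not zero (no
point `X = ∞`), and it has no root in `k` -/
def EmptyFibre {K L k : Type} [Field K] [NumberField K] [Field L] [Algebra K L] [Field k]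
    {N r s n e : ℕ} (ω : Module.Basis (Fin N) ℤ (𝓞 K))
    (h : Fin (e + 1) → MvPolynomial (Fin (n + 1)) (𝓞 L)) (Φ : Fin (n + 1) → Pol (𝓞 K) r s)
    {ι : Fin (n + 1) → Type} [∀ j, Fintype (ι j)] (Λ : (j : Fin (n + 1)) → ι j → Pol (𝓞 K) r s)
    (c : (Σ j, ι j) × Fin N → ℤ) (φ : 𝓞 L →+* k) (W : Fin r → Fin 3 → k) (y : Fin s → k) : Prop :=
  MvPolynomial.eval₂ φ (coord (φ.comp (algebraMap (𝓞 K) (𝓞 L))) ω Φ Λ c W y) (h (Fin.last e)) ≠ 0 ∧
  ∀ x : k, ∑ i, MvPolynomial.eval₂ φ (coord (φ.comp (algebraMap (𝓞 K) (𝓞 L))) ω Φ Λ c W y) (h i) *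
    x ^ (i : ℕ) ≠ 0

/-- the Mordell-Weil sieve with the primes of `L` above the prime numbers `p ≤ Y`, for some `Y`,
explains that the covering `h(φ_c(P); X) = 0` of `G` has no points over `L` (over points `P` with
`S`-units as torus coordinates): for every such point `P = (V, u)` of `G` there is a surjection `φ` of
`𝓞 L` to a field `k` with `p` or `p ^ 2` elements, `p ≤ Y`, such that the reduction `(W, y)` of `P` has
no `k`-rational point of the covering above it -/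
def Explained {K L : Type} [Field K] [NumberField K] [Field L] [Algebra K L]
    {N r s n e : ℕ} (ω : Module.Basis (Fin N) ℤ (𝓞 K)) (a b : Fin r → ℤ)
    (h : Fin (e + 1) → MvPolynomial (Fin (n + 1)) (𝓞 L)) (Φ : Fin (n + 1) → Pol (𝓞 K) r s)
    {ι : Fin (n + 1) → Type} [∀ j, Fintype (ι j)] (Λ : (j : Fin (n + 1)) → ι j → Pol (𝓞 K) r s)
    (S : ℕ) (c : (Σ j, ι j) × Fin N → ℤ) : Prop :=
  ∃ Y : ℕ, ∀ (V : Fin r → Fin 3 → L) (u : Fin s → L), OnG a b V u → (∀ l, SUnit S (u l)) →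
    ∃ (p : ℕ) (k : Type) (_ : Field k) (_ : Fintype k) (φ : 𝓞 L →+* k) (W : Fin r → Fin 3 → k)
      (y : Fin s → k), p.Prime ∧ p ≤ Y ∧ (Fintype.card k = p ∨ Fintype.card k = p ^ 2) ∧
      Function.Surjective φ ∧ (∀ i, Reduces φ (V i) (W i)) ∧ (∀ l, ReducesUnit φ (u l) (y l)) ∧
      OnG a b W y ∧ EmptyFibre ω h Φ Λ c φ W y

/-- the covering `h(φ_c(P); X) = 0` of `G` has no points over `L` above points `P` of `G` over `L` with
`S`-units as torus coordinates (neither finite ones nor points with `X = ∞`) -/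
def NoPoints {K L : Type} [Field K] [NumberField K] [Field L] [Algebra K L]
    {N r s n e : ℕ} (ω : Module.Basis (Fin N) ℤ (𝓞 K)) (a b : Fin r → ℤ)
    (h : Fin (e + 1) → MvPolynomial (Fin (n + 1)) (𝓞 L)) (Φ : Fin (n + 1) → Pol (𝓞 K) r s)
    {ι : Fin (n + 1) → Type} [∀ j, Fintype (ι j)] (Λ : (j : Fin (n + 1)) → ι j → Pol (𝓞 K) r s)
    (S : ℕ) (c : (Σ j, ι j) × Fin N → ℤ) : Prop :=
  ∀ (V : Fin r → Fin 3 → L) (u : Fin s → L), OnG a b V u → (∀ l, SUnit S (u l)) →
    EmptyFibre ω h Φ Λ c (algebraMap (𝓞 L) L) V u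

/-- `h` defines a covering of `ℙ^n` over `L` which is regular with the group `𝒢`: the `h_i` are
homogeneous of the same degree, the Galois group of `h` over `L(T)` is `𝒢`, and on some complex line
`y + x v` the Galois group of `h` over `ℂ(x)` is `𝒢`, too -/
def Regular {L : Type} [Field L] {n e : ℕ}
    (h : Fin (e + 1) → MvPolynomial (Fin (n + 1)) (𝓞 L)) (𝒢 : Subgroup (Equiv.Perm (Fin e))) : Prop :=
  (∃ D : ℕ, ∀ i, (h i).IsHomogeneous D) ∧
  GalIs (fun i => algebraMap (MvPolynomial (Fin (n + 1)) (𝓞 L))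
    (FractionRing (MvPolynomial (Fin (n + 1)) (𝓞 L))) (h i)) 𝒢 ∧
  ∃ (τ : L →+* ℂ) (y v : Fin (n + 1) → ℂ), GalIs (fun i =>
    MvPolynomial.eval₂ ((RatFunc.C : ℂ →+* RatFunc ℂ).comp (emb τ))
      (fun j => RatFunc.C (y j) + RatFunc.C (v j) * RatFunc.X) (h i)) 𝒢

/-- `K` is not totally real or `L` has a real embedding -/
def Comparable (K L : Type) [Field K] [Field L] : Prop :=
  (∃ (τ : K →+* ℂ) (x : K), (τ x).im ≠ 0) ∨ ∃ τ : L →+* ℂ, ∀ x, (τ x).im = 0

/-- the permutation group `𝒢` is transitive -/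
def Transitive {e : ℕ} (𝒢 : Subgroup (Equiv.Perm (Fin e))) : Prop := ∀ i j, ∃ σ ∈ 𝒢, σ i = j

theorem cmp_of {K L : Type} [Field K] [Field L] [Algebra K L] [Algebra.IsAlgebraic K L]
    (h : Comparable K L) : Pool.Agent.N89.HA.Cmp K L := by
  rcases h with ⟨τ, x, hx⟩ | ⟨τ, hτ⟩
  · let _ : Algebra K ℂ := τ.toAlgebra
    let f : L →ₐ[K] ℂ := IsAlgClosed.lift
    refine ⟨f, Or.inr ⟨x, ?_⟩⟩
    have h1 : (f : L →+* ℂ) (algebraMap K L x) = τ x := f.commutes x
    rw [h1]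
    exact hx
  · exact ⟨τ, Or.inl hτ⟩

theorem explained_of {K L : Type} [Field K] [NumberField K] [Field L] [NumberField L] [Algebra K L]
    {N r s n e : ℕ} (ω : Module.Basis (Fin N) ℤ (𝓞 K)) (a b : Fin r → ℤ)
    (h : Fin (e + 1) → MvPolynomial (Fin (n + 1)) (𝓞 L)) (Φ : Fin (n + 1) → Pol (𝓞 K) r s)
    {ι : Fin (n + 1) → Type} [∀ j, Fintype (ι j)] (Λ : (j : Fin (n + 1)) → ι j → Pol (𝓞 K) r s)
    (S : ℕ) (c : (Σ j, ι j) × Fin N → ℤ)
    (hc : Pool.Agent.N89.MW.Expl ω a b h (fun i => Pool.Agent.N89.HL.up (Φ i))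
      (fun i x => Pool.Agent.N89.HL.up (Λ i x)) S c) : Explained ω a b h Φ Λ S c := by
  have hval : ∀ {k : Type} [Field k] (φ : 𝓞 K →+* k) (F : Pol (𝓞 K) r s) (V : Fin r → Fin 3 → k)
      (u : Fin s → k), val φ F V u =
        Pool.Agent.W659.SA.vl φ (Pool.Agent.N89.HL.up F) V u Fin.elim0 := fun φ F V u =>
    (Pool.Agent.N89.HL.vl_up φ F V u Fin.elim0).symm
  obtain ⟨Y, hY⟩ := hc
  refine ⟨Y, fun V u hV hu => ?_⟩
  obtain ⟨p, k, hk1, hk2, φ, W, y, h1, h2, h3, h4, h5, h6, h7, h8⟩ :=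
    hY V (fun l => Units.mk0 (u l) (hV.2 l)) hV.1 (fun l => by
      obtain ⟨n, hn1, hn2⟩ := hu l
      exact ⟨n, hn1, by simpa using hn2⟩)
  refine ⟨p, k, hk1, hk2, φ, W, y, h1, h2, h3, h4, h5, h6, ⟨h7, fun l => (h6 l).1⟩, ?_⟩
  have hco : coord (φ.comp (algebraMap (𝓞 K) (𝓞 L))) ω Φ Λ c W y =
      Pool.Agent.N89.HL.zc (φ.comp (algebraMap (𝓞 K) (𝓞 L)))
        (fun i => Pool.Agent.N89.HL.up (Φ i)) (fun i x => Pool.Agent.N89.HL.up (Λ i x)) W y
        (Pool.Agent.N89.HL.vecJ ω c) := by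
    funext j
    unfold coord
    simp only [hval]
    rfl
  unfold EmptyFibre
  rw [hco]
  exact h8

theorem noPoints_of {K L : Type} [Field K] [NumberField K] [Field L] [NumberField L] [Algebra K L]
    {N r s n e : ℕ} (ω : Module.Basis (Fin N) ℤ (𝓞 K)) (a b : Fin r → ℤ)
    (h : Fin (e + 1) → MvPolynomial (Fin (n + 1)) (𝓞 L)) (Φ : Fin (n + 1) → Pol (𝓞 K) r s)
    {ι : Fin (n + 1) → Type} [∀ j, Fintype (ι j)] (Λ : (j : Fin (n + 1)) → ι j → Pol (𝓞 K) r s)
    (S : ℕ) (c : (Σ j, ι j) × Fin N → ℤ)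
    (hc : c ∉ Pool.Agent.N89.MI.Cov.HasPoint (L := L) ω a b h Φ Λ S) : NoPoints ω a b h Φ Λ S c := by
  intro V u hV hu
  have hi : (algebraMap (𝓞 L) L).comp (algebraMap (𝓞 K) (𝓞 L)) =
      Pool.Agent.N89.MI.Cov.incl K L := by
    ext x
    rfl
  have hco : coord ((algebraMap (𝓞 L) L).comp (algebraMap (𝓞 K) (𝓞 L))) ω Φ Λ c V u =
      Pool.Agent.N89.MI.Cov.coord ω Φ Λ c V u := by
    rw [hi]
    rfl
  unfold EmptyFibre
  rw [hco]
  by_contra hcon
  apply hc
  refine ⟨V, u, hV, hu, ?_⟩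
  by_contra h3
  push Not at h3
  exact hcon h3

theorem result (K : Type) [Field K] [NumberField K] (N : ℕ) (ω : Module.Basis (Fin N) ℤ (𝓞 K))
    (r s n : ℕ) (a b : Fin r → ℤ) (hab : ∀ i, a i * b i = 0 ∧ (a i ≠ 0 ∨ b i ≠ 0)) (σ : K →+* ℂ)
    -- the maps `φ_c`
    (Φ : Fin (n + 1) → Pol (𝓞 K) r s) (ι : Fin (n + 1) → Type) [∀ j, Fintype (ι j)]
    (Λ : (j : Fin (n + 1)) → ι j → Pol (𝓞 K) r s) (d : Fin r → ℕ)
    (hΦ : ∀ j, Homog (Φ j) d) (hΛ : ∀ j x, Homog (Λ j x) d)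
    (hbp : ∀ j V u, OnG a b V u → ∃ x, val (emb σ) (Λ j x) V u ≠ 0) :
    -- 1. the number of the exceptional `c` for one field, one covering
    (∀ L : IntermediateField K (AlgebraicClosure K), FiniteDimensional K L → Comparable K L →
      ∀ (e : ℕ) (h : Fin (e + 1) → MvPolynomial (Fin (n + 1)) (𝓞 L))
        (𝒢 : Subgroup (Equiv.Perm (Fin e))), 2 ≤ e → Transitive 𝒢 → Regular h 𝒢 → ∀ S : ℕ, 1 ≤ S →
      ∃ c₀ : ℝ, 0 < c₀ ∧ ∃ H₀ : ℕ, ∀ H : ℕ, H₀ ≤ H →
        (({c : (Σ j, ι j) × Fin N → ℤ | (∀ i, |c i| ≤ (H : ℤ)) ∧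
          ¬ (Explained ω a b h Φ Λ S c ∧ NoPoints ω a b h Φ Λ S c)}.ncard : ℕ) : ℝ) ≤
          (2 * (H : ℝ) + 1) ^ (Fintype.card (Σ j, ι j) * N) *
            Real.exp (-c₀ * (Real.log H / Real.log (Real.log H)))) ∧
    -- 2. one exceptional set for all fields `L`, all coverings `h`, all groups `𝒢` and all `S`
    ∃ E : Set ((Σ j, ι j) × Fin N → ℤ),
      (∃ H₀ : ℕ, ∀ H : ℕ, H₀ ≤ H → (({c : (Σ j, ι j) × Fin N → ℤ |
        (∀ i, |c i| ≤ (H : ℤ)) ∧ c ∈ E}.ncard : ℕ) : ℝ) ≤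
        (2 * (H : ℝ) + 1) ^ (Fintype.card (Σ j, ι j) * N) *
          Real.exp (-(Real.log H / Real.log (Real.log H) ^ 2))) ∧
      ∀ L : IntermediateField K (AlgebraicClosure K), FiniteDimensional K L → Comparable K L →
        ∀ (e : ℕ) (h : Fin (e + 1) → MvPolynomial (Fin (n + 1)) (𝓞 L))
          (𝒢 : Subgroup (Equiv.Perm (Fin e))), 2 ≤ e → Transitive 𝒢 → Regular h 𝒢 → ∀ S : ℕ, 1 ≤ S →
        {c | ¬ (Explained ω a b h Φ Λ S c ∧ NoPoints ω a b h Φ Λ S c) ∧ c ∉ E}.Finite := by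
  classical
  have hval : ∀ {k : Type} [Field k] (φ : 𝓞 K →+* k) (F : Pol (𝓞 K) r s) (V : Fin r → Fin 3 → k)
      (u : Fin s → k), val φ F V u =
        Pool.Agent.W659.SA.vl φ (Pool.Agent.N89.HL.up F) V u Fin.elim0 := fun φ F V u =>
    (Pool.Agent.N89.HL.vl_up φ F V u Fin.elim0).symm
  have part1 : ∀ L : IntermediateField K (AlgebraicClosure K), FiniteDimensional K L →
      Comparable K L → ∀ (e : ℕ) (h : Fin (e + 1) → MvPolynomial (Fin (n + 1)) (𝓞 L))
      (𝒢 : Subgroup (Equiv.Perm (Fin e))), 2 ≤ e → Transitive 𝒢 → Regular h 𝒢 → ∀ S : ℕ, 1 ≤ S →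
      ∃ c₀ : ℝ, 0 < c₀ ∧ ∃ H₀ : ℕ, ∀ H : ℕ, H₀ ≤ H →
        (({c : (Σ j, ι j) × Fin N → ℤ | (∀ i, |c i| ≤ (H : ℤ)) ∧
          ¬ (Explained ω a b h Φ Λ S c ∧ NoPoints ω a b h Φ Λ S c)}.ncard : ℕ) : ℝ) ≤
          (2 * (H : ℝ) + 1) ^ (Fintype.card (Σ j, ι j) * N) *
            Real.exp (-c₀ * (Real.log H / Real.log (Real.log H))) := by
    rintro L hL hc e h 𝒢 he ht ⟨⟨D, hh⟩, h1, τ, y, v, h2⟩ S hS
    have : NumberField L := NumberField.of_module_finite K L
    obtain ⟨π, hπ, hπf⟩ := Pool.Agent.N89.MW.jordan he 𝒢 ht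
    have hE1 := Pool.Agent.N89.MW.finMW K L (cmp_of hc) N ω r s n e a b hab h 𝒢 h1
      τ y v h2 σ (fun i => Pool.Agent.N89.HL.up (Φ i)) ι (fun i x => Pool.Agent.N89.HL.up (Λ i x))
      (fun i V u hV => by
        obtain ⟨x, hx⟩ := hbp i V u ⟨hV.1, hV.2⟩
        refine ⟨x, ?_⟩
        rw [hval] at hx
        exact hx) S hS π hπ hπf
    obtain ⟨hE2, hE3⟩ := (Pool.Agent.N89.MI.Cov.result K N ω r s n a b hab σ Φ ι Λ d hΦ hΛ hbp).1 L hL
      hc e h 𝒢 ⟨⟨D, hh⟩, h1, τ, y, v, h2⟩ S hS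
    refine Pool.Agent.N89.HX.union_bound (I := Bool)
      (fun (c : (Σ j, ι j) × Fin N → ℤ) (H : ℕ) => ∀ i, |c i| ≤ (H : ℤ))
      (fun H => Pool.Agent.N89.HL.boxJ_finite H) (Fintype.card (Σ j, ι j) * N)
      (fun z => if z then {c | ¬ Pool.Agent.N89.MW.Expl ω a b h (fun i => Pool.Agent.N89.HL.up (Φ i))
          (fun i x => Pool.Agent.N89.HL.up (Λ i x)) S c} else
        Pool.Agent.N89.MI.Cov.Exceptional ω a b h 𝒢 Φ Λ S) (fun z => ?_) _ ?_
    · cases z
      · exact hE3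
      · exact hE1
    · intro c hc1
      by_contra hc2
      simp only [Set.mem_iUnion, not_exists] at hc2
      apply hc1
      refine ⟨explained_of ω a b h Φ Λ S c ?_, noPoints_of ω a b h Φ Λ S c ?_⟩
      · have h3 := hc2 true
        by_contra h4
        exact h3 h4
      · intro h3
        exact hc2 false (hE2 he ht h3)
  refine ⟨part1, ?_⟩
  -- countably many fields and coverings
  have hct : Countable {L : IntermediateField K (AlgebraicClosure K) //
      FiniteDimensional K L ∧ Comparable K L} := by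
    have hp : ∀ L : {L : IntermediateField K (AlgebraicClosure K) //
        FiniteDimensional K L ∧ Comparable K L}, ∃ θ : AlgebraicClosure K,
          IntermediateField.adjoin K {θ} = L.1 := by
      rintro ⟨L, hL, -⟩
      obtain ⟨α, hα⟩ := Field.exists_primitive_element K L
      refine ⟨α, ?_⟩
      have h2 : (IntermediateField.adjoin K {α}).map L.val =
          IntermediateField.adjoin K {(α : AlgebraicClosure K)} := by
        rw [IntermediateField.adjoin_map, Set.image_singleton]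
        rfl
      rw [← h2, hα, ← AlgHom.fieldRange_eq_map]
      exact L.fieldRange_val
    choose θ hθ using hp
    have hinj : Function.Injective θ := by
      intro L L' hLL
      apply Subtype.ext
      rw [← hθ L, ← hθ L', hLL]
    exact hinj.countable
  let Fd : Type := {L : IntermediateField K (AlgebraicClosure K) //
      FiniteDimensional K L ∧ Comparable K L}
  have hcL : ∀ L : Fd, Countable (𝓞 L.1) := fun L => by
    have : Function.Injective (fun x : 𝓞 L.1 => ((x : L.1) : AlgebraicClosure K)) := by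
      intro x y hxy
      exact RingOfIntegers.ext (Subtype.ext hxy)
    exact this.countable
  have hcM : ∀ L : Fd, Countable (MvPolynomial (Fin (n + 1)) (𝓞 L.1)) := fun L => by
    have := hcL L
    rw [← Cardinal.mk_le_aleph0_iff]
    refine MvPolynomial.cardinalMk_le_max.trans ?_
    simp
  let I : Type := {z : Σ (L : Fd) (e : ℕ), (Fin (e + 1) → MvPolynomial (Fin (n + 1)) (𝓞 L.1)) ×
    Subgroup (Equiv.Perm (Fin e)) × ℕ // (2 ≤ z.2.1 ∧ Transitive z.2.2.2.1) ∧
      Regular z.2.2.1 z.2.2.2.1 ∧ 1 ≤ z.2.2.2.2}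
  have : Countable I := inferInstance
  obtain ⟨E, hE1, hE2⟩ := Pool.Agent.N89.GS.diag (X := (Σ j, ι j) × Fin N → ℤ) (I := I)
    (fun (c : (Σ j, ι j) × Fin N → ℤ) (H : ℕ) => ∀ i, |c i| ≤ (H : ℤ))
    (fun c H H' h hc i => (hc i).trans (by exact_mod_cast h))
    (fun H => Pool.Agent.N89.HL.boxJ_finite H) (Fintype.card (Σ j, ι j) * N)
    (fun z => {c | ¬ (Explained ω a b z.1.2.2.1 Φ Λ z.1.2.2.2.2 c ∧
      NoPoints ω a b z.1.2.2.1 Φ Λ z.1.2.2.2.2 c)})
    (fun z => part1 z.1.1.1 z.1.1.2.1 z.1.1.2.2 z.1.2.1 z.1.2.2.1 z.1.2.2.2.1 z.2.1.1 z.2.1.2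
      z.2.2.1 z.1.2.2.2.2 z.2.2.2)
  exact ⟨E, hE1, fun L hL hc e h 𝒢 he ht hR S hS =>
    hE2 ⟨⟨⟨L, hL, hc⟩, e, h, 𝒢, S⟩, ⟨he, ht⟩, hR, hS⟩⟩

end Pool.Agent.Results.MP_ab3ecb_nt.SieveForCoverings
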